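import Pool.Agent.R562.NV.Main

/-!
# Advice of the right size makes all multiplications superfluous
-/

set_option autoImplicit false

namespace Pool.Agent.N600.CG

open Pool.Agent.W966.Mm Pool.Agent.W966.Vf Pool.Agent.R562.NV

/-- **Sharpness.** -/
theorem sharp (K : Type) [Field K] (n Q : ℕ) (hQ : Q ≤ n ^ 2) :
    ∃ t : QTree K n, ∀ A B : Matrix (Fin n) (Fin n) K, Reliable t Q 0 Q 1 A B := by
  classical
  let num : Fin n × Fin n → ℕ := fun v => finProdFinEquiv v
  let M : Fin n → Fin n → Lin K n := fun i j => ⟨0, 0, 0, Pi.single (num (i, j)) 1⟩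
  refine ⟨.output M, fun A B => ?_⟩
  let a : ℕ → K := fun s => if h : s < n * n then
    (A * B) (finProdFinEquiv.symm ⟨s, h⟩).1 (finProdFinEquiv.symm ⟨s, h⟩).2 else 0
  let C₁ : Matrix (Fin n) (Fin n) K := Matrix.of fun i j => (M i j).val A B Q a
  have hval : ∀ i j, num (i, j) < Q → C₁ i j = (A * B) i j := by
    intro i j h
    show (M i j).val A B Q a = _
    unfold Lin.val
    simp only [M, Pi.zero_apply, zero_mul, add_zero, Finset.sum_const_zero, zero_add]
    rw [Finset.sum_eq_single (num (i, j))]
    · rw [Pi.single_eq_same, one_mul]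
      have h1 : num (i, j) < n * n := (finProdFinEquiv (i, j)).2
      simp only [a, dif_pos h1]
      have h2 : (⟨num (i, j), h1⟩ : Fin (n * n)) = finProdFinEquiv (i, j) := rfl
      rw [h2, Equiv.symm_apply_apply]
    · intro s _ hs
      rw [Pi.single_eq_of_ne hs, zero_mul]
    · intro h3
      exact absurd (Finset.mem_range.mpr h) h3
  refine reliable_of_agree (a := a) ?_ ⟨C₁, 0, rfl⟩
  rintro C ⟨G, hG⟩
  have hC : C₁ = C := hG
  rw [← hC]
  unfold AgreeIn
  have h1 : (Finset.univ.filter fun s : Fin (n * n) => (s : ℕ) < Q).card = Q := by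
    have h2 : Q ≤ n * n := by rw [← pow_two]; exact hQ
    have h3 : (Finset.univ.filter fun s : Fin (n * n) => (s : ℕ) < Q) =
        Finset.univ.map (Fin.castLEEmb h2) := by
      ext s
      simp only [Finset.mem_filter, Finset.mem_univ, true_and, Finset.mem_map,
        Fin.castLEEmb_apply]
      constructor
      · intro h
        exact ⟨⟨s, h⟩, Fin.ext rfl⟩
      · rintro ⟨x, hx⟩
        rw [← hx]
        exact x.2
    rw [h3, Finset.card_map, Finset.card_univ, Fintype.card_fin]
  rw [← h1]
  refine Finset.card_le_card_of_injOn (fun s => finProdFinEquiv.symm s) ?_ ?_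
  · intro s hs
    simp only [Finset.coe_filter, Finset.mem_univ, true_and, Set.mem_ofPred_eq] at hs ⊢
    refine hval _ _ ?_
    show (finProdFinEquiv (finProdFinEquiv.symm s) : ℕ) < Q
    rw [Equiv.apply_symm_apply]
    exact hs
  · intro s _ s' _ h
    exact finProdFinEquiv.symm.injective h

end Pool.Agent.N600.CG
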